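import Pool.Agent.W586.CS.Stm

/-!
Project CS, part GAU: the Gaussian functional on polynomials.
-/

set_option autoImplicit false

namespace Pool.Agent.W494.CS

open MvPolynomial MeasureTheory Pool.Agent.W586.CS

noncomputable section

/-- one dimensional moments -/
def mom (k : ℕ) : ℝ := ∫ x : ℝ, x ^ k * Real.exp (-x ^ 2)

/-- the weight -/
def W {d : ℕ} (x : Fin d → ℝ) : ℝ := ∏ i, Real.exp (-(x i) ^ 2)

theorem W_pos {d : ℕ} (x : Fin d → ℝ) : 0 < W x := Finset.prod_pos fun _ _ => Real.exp_pos _

theorem W_cont {d : ℕ} : Continuous (W : (Fin d → ℝ) → ℝ) := by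
  unfold W
  fun_prop

variable {d : ℕ}

theorem mono_eq (s : Fin d →₀ ℕ) (c : ℝ) : (fun x : Fin d → ℝ => eval x (monomial s c) * W x) =
    fun x => c * ∏ i, (x i ^ s i * Real.exp (-(x i) ^ 2)) := by
  funext x
  rw [eval_monomial, Finsupp.prod_fintype _ _ (by simp), W, mul_assoc, ← Finset.prod_mul_distrib]

theorem mono_int (h : S_G1) (s : Fin d →₀ ℕ) (c : ℝ) :
    Integrable (fun x : Fin d → ℝ => eval x (monomial s c) * W x) := by
  rw [mono_eq]
  apply Integrable.const_mul
  exact Integrable.fintype_prod (f := fun (i : Fin d) (t : ℝ) => t ^ s i * Real.exp (-t ^ 2))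
    (fun i => (h (s i)).1)

theorem mono_val (s : Fin d →₀ ℕ) (c : ℝ) :
    ∫ x : Fin d → ℝ, eval x (monomial s c) * W x = c * ∏ i, mom (s i) := by
  rw [mono_eq, integral_const_mul]
  congr 1
  exact integral_fintype_prod_volume_eq_prod
    (fun (i : Fin d) (t : ℝ) => t ^ s i * Real.exp (-t ^ 2))

theorem int_all (h : S_G1) (p : MvPolynomial (Fin d) ℝ) :
    Integrable (fun x : Fin d → ℝ => eval x p * W x) := by
  induction p using MvPolynomial.induction_on' with
  | monomial s c => exact mono_int h s c
  | add p q hp hq =>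
    have e : (fun x : Fin d → ℝ => eval x (p + q) * W x) =
        fun x => eval x p * W x + eval x q * W x := by
      funext x; rw [map_add, add_mul]
    rw [e]
    exact hp.add hq

/-- the functional -/
def Ph (h : S_G1) (d : ℕ) : MvPolynomial (Fin d) ℝ →ₗ[ℝ] ℝ where
  toFun p := ∫ x : Fin d → ℝ, eval x p * W x
  map_add' p q := by
    rw [← integral_add (int_all h p) (int_all h q)]
    congr 1
    funext x; rw [map_add, add_mul]
  map_smul' c p := by
    rw [RingHom.id_apply, smul_eq_mul, ← integral_const_mul]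
    congr 1
    funext x; rw [smul_eval]; ring

theorem Ph_mono (h : S_G1) (s : Fin d →₀ ℕ) (c : ℝ) :
    Ph h d (monomial s c) = c * ∏ i, mom (s i) := mono_val s c

theorem main : S_G1 → S_GAU := by
  intro h d
  refine ⟨⟨Ph h d, ?_, ?_, ?_⟩⟩
  · intro p hp
    exact integral_nonneg fun x => mul_nonneg (hp x) (W_pos x).le
  · intro p hp
    have h0 : ∀ x : Fin d → ℝ, 0 ≤ eval x (p * p) * W x := fun x => by
      rw [map_mul]; exact mul_nonneg (mul_self_nonneg _) (W_pos x).le
    have h1 : 0 ≤ Ph h d (p * p) := integral_nonneg h0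
    refine lt_of_le_of_ne h1 (fun h2 => hp ?_)
    have h3 : (fun x : Fin d → ℝ => eval x (p * p) * W x) =ᵐ[volume] 0 :=
      (integral_eq_zero_iff_of_nonneg h0 (int_all h (p * p))).1 h2.symm
    have hc : Continuous (fun x : Fin d → ℝ => eval x (p * p) * W x) :=
      (MvPolynomial.continuous_eval (p * p)).mul W_cont
    have h4 : (fun x : Fin d → ℝ => eval x (p * p) * W x) = 0 :=
      (hc.ae_eq_iff_eq volume continuous_zero).1 h3
    apply MvPolynomial.funext
    intro x
    have h5 := congrFun h4 x
    simp only [Pi.zero_apply, map_mul] at h5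
    have h6 := (mul_eq_zero.1 h5).resolve_right (W_pos x).ne'
    rw [map_zero]
    exact mul_self_eq_zero.1 h6
  · intro j p
    induction p using MvPolynomial.induction_on' with
    | monomial s c =>
      have e1 : X j * monomial s c = monomial (Finsupp.single j 1 + s) c := by
        rw [X, monomial_mul, one_mul]
      rw [pderiv_monomial, e1, Ph_mono, Ph_mono]
      have e2 : ∏ i, mom ((s - (Finsupp.single j 1 : Fin d →₀ ℕ) : Fin d →₀ ℕ) i) =
          mom (s j - 1) * ∏ i ∈ Finset.univ.erase j, mom (s i) := by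
        rw [← Finset.mul_prod_erase _ _ (Finset.mem_univ j)]
        congr 1
        · simp
        · refine Finset.prod_congr rfl fun i hi => ?_
          have hij : j ≠ i := (Finset.ne_of_mem_erase hi).symm
          simp [hij]
      have e3 : ∏ i, mom ((Finsupp.single j 1 + s : Fin d →₀ ℕ) i) =
          mom (s j + 1) * ∏ i ∈ Finset.univ.erase j, mom (s i) := by
        rw [← Finset.mul_prod_erase _ _ (Finset.mem_univ j)]
        congr 1
        · simp [add_comm]
        · refine Finset.prod_congr rfl fun i hi => ?_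
          have hij : j ≠ i := (Finset.ne_of_mem_erase hi).symm
          simp [hij]
      rw [e2, e3]
      have h7 : (s j : ℝ) * mom (s j - 1) = 2 * mom (s j + 1) := (h (s j)).2
      linear_combination (c * ∏ i ∈ Finset.univ.erase j, mom (s i)) * h7
    | add p q hp hq =>
      rw [map_add, map_add, mul_add, map_add, hp, hq, mul_add]

end

end Pool.Agent.W494.CS
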